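import Pool.Agent.H30.LT.Targets

/-!
# MP_70ba79_ag, board `al_modules`, module FIN: the ranks are finite
-/

set_option autoImplicit false

namespace Pool.Agent.H97.LT.FIN

open MvPolynomial SC Pool.Agent.H27.LV Pool.Agent.H30.AV Pool.Agent.H30.AW Pool.Agent.H30.AX
open Pool.Agent.H30.LT Cardinal

attribute [local instance] MvPolynomial.algebraMvPolynomial

private theorem fin_hom {k : Type} [Field k] (σ : Type) [Finite σ] (M : ℕ) :
    (homogeneousSubmodule σ k M).FG := by
  rw [homogeneousSubmodule_eq_finsupp_supported, AddMonoidAlgebra.supported_eq_span_single]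
  refine Submodule.fg_span (Set.Finite.image _ ?_)
  refine (Finsupp.finite_of_degree_le (σ := σ) M).subset ?_
  intro d hd
  exact le_of_eq hd

theorem pf_FIN (hRCO : T_RCO) : T_FIN := by
  intro k F _ _ _ n W w q M
  have hU : (Uf k W M).FG := (fin_hom (k := k) (Zw n) M).map _
  haveI : Module.Finite k (Uf k W M) := Module.Finite.of_fg hU
  have hU' : Module.rank k (Uf k W M) < ℵ₀ := Module.rank_lt_aleph0 k (Uf k W M)
  have hinj : Function.Injective (algebraMap k F) := (algebraMap k F).injective
  have hR : ∀ q : ℕ, Module.rank (MvPolynomial (Lw q n) k) (cof (Lw q n) (Uf k W M)) =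
      Module.rank k (Uf k W M) := fun q => hRCO k F (Lw q n) (Uf k W M) hinj hU'
  constructor
  · refine lt_of_le_of_lt (Submodule.rank_mono (inf_le_left :
      VM k W w q M ≤ cof (Lw q n) (Uf k W M))) ?_
    rw [hR q]
    exact hU'
  · have h1 : VM k W w 0 M = cof (Lw 0 n) (Uf k W M) := by
      unfold VM
      rw [iInf_of_empty]
      apply le_antisymm inf_le_left
      refine le_inf le_rfl ?_
      intro x _
      exact Submodule.mem_top
    unfold hq
    rw [h1]
    unfold Module.finrank
    rw [hR 0]

end Pool.Agent.H97.LT.FIN
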