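import Pool.Agent.H30.LT.Targets
import Pool.Agent.H49.AX.VE3

/-!
# MP_70ba79_ag, board `al_modules`, module VE5
-/

set_option autoImplicit false

namespace Pool.Agent.H97.LT.VE5

open MvPolynomial SC Pool.Agent.H27.LV Pool.Agent.H30.AV Pool.Agent.H30.AW Pool.Agent.H30.AX
open Pool.Agent.H30.LT Pool.Agent.H63.AV Pool.Agent.H49.AX.VE3

theorem pf_VE5 (hIZN : T_IZN) : T_VE5 := by
  intro k _ _ _ m n r e q Q hm2 hr he hdim hq
  obtain ⟨n', ψ, hψ⟩ := exists_equiv n e
  -- values of the monomials
  let mv : ∀ {F : Type} [Field F], (Fin n → F) → Fin n' → F :=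
    fun {F} _ y j => ∏ i, y i ^ (ψ j.succ).1 i
  let Q' : Set (MvPolynomial (Fin n') k) := {g | ∀ (F : Type) [Field F] [Algebra k F]
    (y : Fin n → F), (∀ f ∈ Q, aeval y f = 0) → aeval (mv y) g = 0}
  have hidx : ∀ j : Fin n, ∃ m : Fin n', ψ m.succ = upol n e he j := by
    intro j
    have hne : ψ.symm (upol n e he j) ≠ 0 := by
      intro h0
      have h1 : upol n e he j = zpol n e := by
        rw [← hψ, ← h0, Equiv.apply_symm_apply]
      have h2 := congrFun (congrArg Subtype.val h1) j
      simp [upol, zpol] at h2
    obtain ⟨m, hm⟩ := Fin.exists_succ_eq.2 hne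
    exact ⟨m, by rw [hm, Equiv.apply_symm_apply]⟩
  choose idx hidx using hidx
  have hmvidx : ∀ {F : Type} [Field F] (y : Fin n → F) (j : Fin n), mv y (idx j) = y j := by
    intro F _ y j
    change ∏ i, y i ^ (ψ (idx j).succ).1 i = y j
    rw [hidx j, Finset.prod_eq_single j]
    · simp [upol]
    · intro b _ hb
      simp [upol, hb]
    · intro h
      exact absurd (Finset.mem_univ j) h
  have hdim' : DimLE Q' r := by
    intro F _ _ z hz s
    let y : Fin n → F := fun j => z (idx j)
    have hy : ∀ f ∈ Q, aeval y f = 0 := by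
      intro f hf
      have h1 : rename idx f ∈ Q' := by
        intro F' _ _ y' hy'
        rw [aeval_rename]
        have : mv y' ∘ idx = y' := funext fun j => hmvidx y' j
        rw [this]
        exact hy' f hf
      have h2 := hz _ h1
      rw [aeval_rename] at h2
      exact h2
    have hzm : ∀ m, z m = mv y m := by
      intro m
      have h1 : (X m - ∏ i, X (idx i) ^ (ψ m.succ).1 i : MvPolynomial (Fin n') k) ∈ Q' := by
        intro F' _ _ y' hy'
        rw [map_sub, aeval_X, map_prod, sub_eq_zero]
        refine Finset.prod_congr rfl fun i _ => ?_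
        rw [map_pow, aeval_X, hmvidx]
      have h2 := hz _ h1
      rw [map_sub, aeval_X, map_prod, sub_eq_zero] at h2
      rw [h2]
      refine Finset.prod_congr rfl fun i _ => ?_
      rw [map_pow, aeval_X]
    refine dim_adjoin y (hdim F y hy) (fun i => z (s i)) fun i => ?_
    rw [hzm]
    exact Subalgebra.prod_mem _ fun j _ =>
      Subalgebra.pow_mem _ (Algebra.subset_adjoin (Set.mem_range_self j)) _
  obtain ⟨Δ, B, hΔ, hB1, hB⟩ := hIZN k m n' r q Q' hm2 hr hdim' hq
  refine ⟨rename (Prod.map id ψ) Δ, B, ?_, hB1, ?_⟩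
  · intro h0
    apply hΔ
    have hinj : Function.Injective (Prod.map (id : Fin q → Fin q) ψ) :=
      Function.injective_id.prodMap ψ.injective
    apply rename_injective _ hinj
    rw [h0, map_zero]
  intro a ha K _ _ _ htr S y D hD hyQ hnc hpv horb
  have ha' : eval (fun p : Fin q × Fin (n' + 1) => (fun i j => a i (ψ j)) p.1 p.2) Δ ≠ 0 := by
    intro h0
    apply ha
    rw [eval_rename]
    exact h0
  -- values
  have hell : ∀ i, ell (fun j => a i (ψ j)) (xx (mv y)) = pv (a i) y := by
    intro i
    unfold ell pv
    rw [← Equiv.sum_comp ψ fun M => algebraMap k K (a i M) * ∏ j, y j ^ M.1 j]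
    refine Finset.sum_congr rfl fun j _ => ?_
    congr 1
    refine Fin.cases ?_ (fun j' => ?_) j
    · rw [hψ]
      simp [zpol, xx]
    · rfl
  -- pole orders
  have hpole : ∀ v : DV k K, poleOrder v (mv y) = e * poleOrder v y := by
    intro v
    apply le_antisymm
    · unfold poleOrder
      refine Finset.sup_le fun j _ => ?_
      have h1 := ord_mon_ge v y (ψ j.succ)
      have h2 : v.ord (mv y j) = v.ord (∏ i, y i ^ (ψ j.succ).1 i) := rfl
      have h3 : ((e * poleOrder v y : ℕ) : ℤ) = (e : ℤ) * poleOrder v y := by push_cast; rfl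
      change (-(v.ord (mv y j))).toNat ≤ e * poleOrder v y
      rw [h2]
      omega
    · rcases Nat.eq_zero_or_pos (poleOrder v y) with h0 | h0
      · rw [h0, mul_zero]
        exact Nat.zero_le _
      · obtain ⟨j, hj⟩ := exists_pole v y h0
        let M : Pol n e := ⟨Pi.single j e, by
          rw [Finset.sum_pi_single']
          simp⟩
        have hM : ψ.symm M ≠ 0 := by
          intro h1
          have h2 : M = zpol n e := by
            rw [← hψ, ← h1, Equiv.apply_symm_apply]
          have h3 := congrFun (congrArg Subtype.val h2) j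
          simp [M, zpol] at h3
          omega
        obtain ⟨m', hm'⟩ := Fin.exists_succ_eq.2 hM
        have h1 : mv y m' = y j ^ e := by
          change ∏ i, y i ^ (ψ m'.succ).1 i = y j ^ e
          rw [hm', Equiv.apply_symm_apply, Finset.prod_eq_single j]
          · simp [M]
          · intro b _ hb
            simp [M, hb]
          · intro h
            exact absurd (Finset.mem_univ j) h
        have h2 : v.ord (mv y m') = -((e * poleOrder v y : ℕ) : ℤ) := by
          rw [h1, v.ord_pow, hj]
          push_cast
          ring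
        have h3 : (-(v.ord (mv y m'))).toNat ≤ poleOrder v (mv y) :=
          Finset.le_sup (f := fun i => (-(v.ord (mv y i))).toNat) (Finset.mem_univ m')
        rw [h2] at h3
        omega
  have hmain := hB (fun i j => a i (ψ j)) ha' K htr S (mv y) D hD (fun g hg => hg K y hyQ)
    (by
      obtain ⟨j, hj⟩ := hnc
      refine ⟨idx j, ?_⟩
      rw [hmvidx y j]
      exact hj)
    (fun i => ⟨by rw [hell]; exact hpv i, fun v hv => by
      unfold lam
      rw [hell, hpole]
      push_cast
      exact horb v hv i⟩) trivial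
  refine le_trans ?_ hmain
  have hpo : ∀ v : DV k K, poleOrder v y ≤ poleOrder v (mv y) := by
    intro v
    rw [hpole]
    exact Nat.le_mul_of_pos_left _ (by omega)
  have h2 : deg k y ≤ deg k (mv y) := by
    unfold deg
    exact finsum_le_finsum' (pfi k K htr _ y) (pfi k K htr _ (mv y)) hpo
  exact_mod_cast h2

end Pool.Agent.H97.LT.VE5
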